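import Mathlib
import Pool.Agent.X69.Domatic
import Pool.Agent.X45.DG.Main

/-! MP_d2c770_co, Q1 (proved): `|γ_g(G,A) - γ_g(G,B)| ≤ 1` for every finite graph `G`. -/

namespace Pool.Agent.Results.MP_d2c770_co.FirstPlayer

open Pool.Agent.X69.Domatic Pool.Agent.X45.DG

/-- For every finite simple graph `H` with at least one vertex, `gamma H true` (Alice moves first)
and `gamma H false` (Bob moves first) are the largest palette sizes `k ≥ 1` for which Alice wins
the domatic game, and these two numbers differ by at most one. -/
theorem result {V : Type} [Fintype V] [Nonempty V] (H : SimpleGraph V) :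
    (∀ b : Bool, IsGreatest
      {k : ℕ | 1 ≤ k ∧ AliceWins H k (Fintype.card V) b (fun _ => none)} (gamma H b)) ∧
      |(gamma H true : ℤ) - (gamma H false : ℤ)| ≤ 1 := by
  refine ⟨fun b => gamma_spec H b, ?_⟩
  have h := main_ineq H
  rw [abs_le]
  omega

end Pool.Agent.Results.MP_d2c770_co.FirstPlayer
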